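import Mathlib
import Pool.Agent.U342.TMQ.Val

/-!
# The refinement (Q2) for the ratios of the twisted Fibonacci sequence

`t` is the Prouhet-Thue-Morse sequence, `h 0 = 0`, `h 1 = 1`, `h n = t n h (n - 1) + h (n - 2)`
(`Pool.Agent.R488.TM`).  Read with lower limits, as in the problem file, the refinement is false, and
its inequality fails in every residue class.  Read with infima it is true: every infimum is a
minimum, it is smaller than the lower limit, and all the listed equalities and values hold.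
-/

set_option autoImplicit false

namespace Pool.Agent.Results.MP_e68cb8_nt.LeastRatios

open Pool.Agent.R488.TM Filter

/-- the ratios `|h (2 ^ k n + i + 1)| / |h (2 ^ k n + i)|` for `2 ^ k n + i ≥ 4` -/
def ratios (k i : ℕ) : Set ℝ :=
  {r | ∃ n : ℕ, 4 ≤ 2 ^ k * n + i ∧
    r = |(h (2 ^ k * n + i + 1) : ℝ)| / |(h (2 ^ k * n + i) : ℝ)|}

/-- the infimum of the ratios -/
noncomputable def infimum (k i : ℕ) : ℝ := sInf (ratios k i)

/-- the lower limit of the ratios as `n` tends to infinity -/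
noncomputable def lowerLimit (k i : ℕ) : ℝ :=
  liminf (fun n : ℕ => |(h (2 ^ k * n + i + 1) : ℝ)| / |(h (2 ^ k * n + i) : ℝ)|) atTop

/-- The refinement Q2 for the constants `C k i`. -/
def Refinement (C : ℕ → ℕ → ℝ) : Prop :=
  (∀ k i : ℕ, 1 ≤ k → i < 2 ^ k → (∃ q : ℚ, C k i = q) ∧
    ∀ n : ℕ, 4 ≤ 2 ^ k * n + i →
      C k i * |(h (2 ^ k * n + i) : ℝ)| ≤ |(h (2 ^ k * n + i + 1) : ℝ)|) ∧
  (∀ k : ℕ, 1 ≤ k → C (2 * k) 0 = C (2 * k + 1) 0) ∧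
  C 1 0 = 2 / 7 ∧ C 2 0 = 2 / 3 ∧ C 3 0 = 2 / 3 ∧ C 4 0 = 64 / 83 ∧ C 5 0 = 64 / 83 ∧
  C 6 0 = 52071130 / 67519091 ∧ C 7 0 = 52071130 / 67519091

lemma isLeast_cast {k i : ℕ} {c : ℚ} (hc : IsLeast (Pool.Agent.U342.TMQ.ratios k i) c) :
    IsLeast (ratios k i) (c : ℝ) := by
  obtain ⟨⟨n, hn, hr⟩, h2⟩ := hc
  refine ⟨⟨n, hn, by rw [hr]; push_cast; rfl⟩, ?_⟩
  rintro r ⟨m, hm, rfl⟩
  have h3 := h2 ⟨m, hm, rfl⟩
  have h4 : ((|(h (2 ^ k * m + i + 1) : ℚ)| / |(h (2 ^ k * m + i) : ℚ)| : ℚ) : ℝ) =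
      |(h (2 ^ k * m + i + 1) : ℝ)| / |(h (2 ^ k * m + i) : ℝ)| := by push_cast; rfl
  rw [← h4]
  exact_mod_cast h3

lemma inf_eq {k i : ℕ} {c : ℚ} (hc : IsLeast (Pool.Agent.U342.TMQ.ratios k i) c) :
    infimum k i = c := (isLeast_cast hc).csInf_eq

lemma abs_pos_of {N : ℕ} (hN : 4 ≤ N) : 0 < |(h N : ℝ)| := by
  have := Pool.Agent.U342.TMQ.h_ne hN
  exact abs_pos.2 (by exact_mod_cast this)

lemma least_zero (k : ℕ) (hk : 1 ≤ k) :
    infimum (2 * k) 0 = |(h (2 ^ (2 * k + 1) + 1) : ℝ)| / |(h (2 ^ (2 * k + 1)) : ℝ)| ∧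
    infimum (2 * k + 1) 0 = |(h (2 ^ (2 * k + 1) + 1) : ℝ)| / |(h (2 ^ (2 * k + 1)) : ℝ)| := by
  obtain ⟨m, rfl⟩ : ∃ m, k = m + 1 := ⟨k - 1, by omega⟩
  have hj : Odd (2 * m + 1) := ⟨m, rfl⟩
  have h1 := Pool.Agent.U342.TMQ.least_zero (k := 2 * m) hj (Or.inr rfl)
  have h2 := Pool.Agent.U342.TMQ.least_zero (k := 2 * m + 1) hj (Or.inl rfl)
  have h3 : ((1 / Pool.Agent.U342.TMQ.x (2 ^ (2 * m + 1)) : ℚ) : ℝ) =
      |(h (2 ^ (2 * (m + 1) + 1) + 1) : ℝ)| / |(h (2 ^ (2 * (m + 1) + 1)) : ℝ)| := by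
    rw [← Pool.Agent.U342.TMQ.rho0, Pool.Agent.U342.TMQ.rho_cast]
    have e : 4 * 2 ^ (2 * m + 1) = 2 ^ (2 * (m + 1) + 1) := by ring
    rw [e]
  rw [show 2 * (m + 1) = 2 * m + 2 by ring, inf_eq h1, show 2 * m + 2 + 1 = 2 * m + 1 + 2 by ring,
    inf_eq h2]
  rw [show 2 * m + 1 + 2 = 2 * (m + 1) + 1 by ring]
  exact ⟨h3, h3⟩

/-- **Theorem.** (1) For all `k ≥ 1` and `i < 2 ^ k` the infimum of the ratios is a minimum, it is
rational and smaller than the lower limit.  (2) So the refinement with lower limits is false; its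
inequality fails for every `k` and `i`.  (3) The refinement with infima is true.  (4) The least
ratio for `(2 k, 0)` and for `(2 k + 1, 0)` is `|h (2 ^ (2 k + 1) + 1)| / |h (2 ^ (2 k + 1))|`. -/
theorem result :
    (∀ k i : ℕ, 1 ≤ k → i < 2 ^ k →
      IsLeast (ratios k i) (infimum k i) ∧ (∃ q : ℚ, infimum k i = q) ∧
        infimum k i < lowerLimit k i) ∧
    (¬ Refinement lowerLimit ∧ ∀ k i : ℕ, 1 ≤ k → i < 2 ^ k →
      ∃ n : ℕ, 4 ≤ 2 ^ k * n + i ∧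
        |(h (2 ^ k * n + i + 1) : ℝ)| < lowerLimit k i * |(h (2 ^ k * n + i) : ℝ)|) ∧
    Refinement infimum ∧
    ∀ k : ℕ, 1 ≤ k →
      infimum (2 * k) 0 = |(h (2 ^ (2 * k + 1) + 1) : ℝ)| / |(h (2 ^ (2 * k + 1)) : ℝ)| ∧
      infimum (2 * k + 1) 0 = |(h (2 ^ (2 * k + 1) + 1) : ℝ)| / |(h (2 ^ (2 * k + 1)) : ℝ)| := by
  have p1 : ∀ k i : ℕ, 1 ≤ k → i < 2 ^ k →
      IsLeast (ratios k i) (infimum k i) ∧ (∃ q : ℚ, infimum k i = q) ∧
        infimum k i < lowerLimit k i := by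
    intro k i hk hi
    obtain ⟨c, h1, h2⟩ := Pool.Agent.U342.TMQ.least_lt hk hi
    have h3 := inf_eq h1
    refine ⟨?_, ⟨c, h3⟩, ?_⟩
    · rw [h3]; exact isLeast_cast h1
    · rw [h3]; exact h2
  have p2 : ∀ k i : ℕ, 1 ≤ k → i < 2 ^ k →
      ∃ n : ℕ, 4 ≤ 2 ^ k * n + i ∧
        |(h (2 ^ k * n + i + 1) : ℝ)| < lowerLimit k i * |(h (2 ^ k * n + i) : ℝ)| := by
    intro k i hk hi
    obtain ⟨⟨⟨n, hn, hr⟩, -⟩, -, h3⟩ := p1 k i hk hi
    refine ⟨n, hn, ?_⟩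
    rw [hr] at h3
    exact (div_lt_iff₀ (abs_pos_of hn)).1 h3
  have two := Pool.Agent.U342.TMQ.least_two
  have four := Pool.Agent.U342.TMQ.least_four
  have six := Pool.Agent.U342.TMQ.least_six
  refine ⟨p1, ⟨?_, p2⟩, ⟨?_, ?_, ?_, ?_, ?_, ?_, ?_, ?_, ?_⟩, least_zero⟩
  · intro hR
    obtain ⟨n, hn, hlt⟩ := p2 1 0 le_rfl (by norm_num)
    exact absurd ((hR.1 1 0 le_rfl (by norm_num)).2 n hn) (not_le.2 hlt)
  · intro k i hk hi
    obtain ⟨h1, h2, -⟩ := p1 k i hk hi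
    refine ⟨h2, fun n hn => ?_⟩
    exact (le_div_iff₀ (abs_pos_of hn)).1 (h1.2 ⟨n, hn, rfl⟩)
  · intro k hk
    rw [(least_zero k hk).1, (least_zero k hk).2]
  · rw [inf_eq Pool.Agent.U342.TMQ.least_one]; norm_num
  · rw [inf_eq two.1]; norm_num
  · rw [inf_eq two.2]; norm_num
  · rw [inf_eq four.1]; norm_num
  · rw [inf_eq four.2]; norm_num
  · rw [inf_eq six.1]; norm_num
  · rw [inf_eq six.2]; norm_num

end Pool.Agent.Results.MP_e68cb8_nt.LeastRatios
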